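import Pool.Agent.Lib.MP_4b56aa_gt.Out.OFrame
import Pool.Agent.Lib.MP_4b56aa_gt.Defs2

namespace Pool.Agent.Lib.MP_4b56aa_gt.Out

open Set MeasureTheory Metric Pool.Agent.Lib.MP_4b56aa_gt.Red

variable {L ρ r θ : ℝ}

theorem pos_cone (A : ℂ ≃ᵃⁱ[ℝ] Plane) {G : ℝ → ℂ} {v : ℂ} {s : Set ℝ} {x t : ℝ}
    (h : HasDerivAt G v x) (ht : t ∈ posTangentConeAt s x) :
    A (G x) - A (G x + -t * v) ∈ posTangentConeAt (A '' (G '' s)) (A (G x)) := by
  have d : HasDerivAt (fun u => A (G u)) (A.linearIsometryEquiv v) x := by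
    have := (A.linearIsometryEquiv.toContinuousLinearEquiv.hasFDerivAt.comp_hasDerivAt x
      h).add_const (A 0)
    refine this.congr_of_eventuallyEq (.of_forall fun u => ?_)
    have k := aff_sub A 0 (G u)
    rw [zero_add] at k
    exact eq_add_of_sub_eq k
  have f := d.hasFDerivAt.hasFDerivWithinAt (s := s)
  obtain ⟨ι, l, hl, c, e, e0, es, ce⟩ := exists_fun_of_mem_tangentConeAt ht
  refine mem_tangentConeAt_of_seq l c (fun n => A (G (x + e n)) - A (G x)) ?_ ?_ ?_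
  · rw [tendsto_sub_nhds_zero_iff]
    exact d.continuousAt.tendsto.comp (by simpa using tendsto_const_nhds.add e0)
  · exact es.mono fun n hn => ⟨_, ⟨x + e n, hn, rfl⟩, by simp⟩
  · have := f.lim (c := fun n => (c n : ℝ)) e0 es ce
    rw [← neg_sub, aff_sub, ← Complex.ofReal_neg, ← Complex.real_smul, map_smul, neg_smul, neg_neg]
    simpa [NNReal.smul_def] using this

theorem Par.shoe (h : Par L ρ r θ) (A : ℂ ≃ᵃⁱ[ℝ] Plane) {a b : Plane}
    (hA : A '' seg L = segment ℝ a b) (st : Prop) :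
    Horseshoe st r (ρ + r) a b (A '' Hs L ρ r θ) := by
  have u0 : 0 < Uh L ρ θ := h.hL.trans h.lt_Uh
  have u1 : -Uh L ρ θ < Uh L ρ θ := by linarith
  have mp : ∀ s ∈ Icc (0 : ℝ) 1, (2 * s - 1) * Uh L ρ θ ∈ Icc (-Uh L ρ θ) (Uh L ρ θ) :=
    fun s hs => ⟨by nlinarith [hs.1], by nlinarith [hs.2]⟩
  have im : (fun s : ℝ => A (Gam L ρ ((2 * s - 1) * Uh L ρ θ))) '' Icc 0 1 =
      A '' (Gam L ρ '' Icc (-Uh L ρ θ) (Uh L ρ θ)) := by
    refine Subset.antisymm ?_ ?_
    · rintro _ ⟨s, hs, rfl⟩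
      exact ⟨_, ⟨_, mp s hs, rfl⟩, rfl⟩
    · rintro _ ⟨_, ⟨u, hu, rfl⟩, rfl⟩
      refine ⟨(u / Uh L ρ θ + 1) / 2, ⟨?_, ?_⟩, ?_⟩
      · have := (le_div_iff₀ u0).2 (show -1 * Uh L ρ θ ≤ u by linarith [hu.1])
        linarith
      · have := (div_le_one u0).2 hu.2
        linarith
      · simp only
        congr 2
        field_simp
        ring
  have e0 : (2 * (0 : ℝ) - 1) * Uh L ρ θ = -Uh L ρ θ := by ring
  have e1 : (2 * (1 : ℝ) - 1) * Uh L ρ θ = Uh L ρ θ := by ring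
  have sg : ∀ x y : ℂ, A '' segment ℝ x y = segment ℝ (A x) (A y) := fun x y =>
    image_segment ℝ A.toAffineEquiv.toAffineMap x y
  have ne : ∀ (z : ℂ) (t : ℝ), A (z + mu L ρ r θ * nv t) ≠ A z := fun z t e => by
    have := congrArg norm (add_eq_left.1 (A.injective e))
    rw [norm_mul, norm_nv, mul_one, Complex.norm_real, norm_zero, norm_eq_zero] at this
    exact h.mu0.ne' this
  have m := h.mu0
  have cn : ∀ {x y : ℝ} {s : Set ℝ}, segment ℝ x y ⊆ s → ∀ {t : ℝ}, 0 < t →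
      t * (y - x) ∈ posTangentConeAt s x := fun {x y s} k t ht => by
    obtain ⟨ι, l, hl, c, e, e0, es, ce⟩ :=
      exists_fun_of_mem_tangentConeAt (sub_mem_posTangentConeAt_of_segment_subset k)
    refine mem_tangentConeAt_of_seq l (fun n => t.toNNReal * c n) e e0 es ?_
    simpa [NNReal.smul_def, mul_assoc, ht.le] using ce.const_mul t
  have t0 : 0 < mu L ρ r θ / (2 * Uh L ρ θ) := by positivity
  refine ⟨fun s => A (Gam L ρ ((2 * s - 1) * Uh L ρ θ)),
    A (Gam L ρ (-Uh L ρ θ) + mu L ρ r θ * nv θ),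
    A (Gam L ρ (Uh L ρ θ) + mu L ρ r θ * nv (Real.pi - θ)), ?_, ?_, ?_, ?_, ?_, fun _ => ?_, ?_⟩
  · exact (A.continuous.comp ((lip_Gam h.hL.le h.ρ0).continuous.comp (by fun_prop))).continuousOn
  · intro s hs t ht e
    have := mul_right_cancel₀ u0.ne' (h.inj (mp s hs) (mp t ht) (A.injective e))
    linarith
  · rintro _ ⟨s, hs, rfl⟩
    rw [stadium, add_sub_cancel_right, mem_frontier_cth (seg_compact a b) (convex_segment a b)
      ⟨a, left_mem_segment ℝ a b⟩ h.ρ0, ← hA, infDist_image A.isometry]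
    exact h.dI_Gam (mp s hs)
  · rw [im]
    simp only [e0]
    have := cone_of_deriv A u1 (left_mem_Icc.2 u1.le) h.deriv_left (-mu L ρ r θ)
    simpa using this
  · rw [im]
    simp only [e1]
    exact cone_of_deriv A u1 (right_mem_Icc.2 u1.le) h.deriv_right _
  · rw [im]
    simp only [e0, e1]
    refine ⟨ne _ _, ne _ _, ?_, ?_⟩
    · have := pos_cone A h.deriv_left (cn (segment_eq_Icc u1.le).subset t0)
      rw [show mu L ρ r θ / (2 * Uh L ρ θ) * (Uh L ρ θ - -Uh L ρ θ) = mu L ρ r θ by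
        field_simp; ring] at this
      simpa using this
    · have := pos_cone A h.deriv_right (cn ((segment_symm ..).trans (segment_eq_Icc u1.le)).subset t0)
      rw [show mu L ρ r θ / (2 * Uh L ρ θ) * (-Uh L ρ θ - Uh L ρ θ) = -mu L ρ r θ by
        field_simp; ring] at this
      simpa using this
  · rw [im]
    simp only [e0, e1]
    rw [Hs, image_union, image_union, sg, sg]

theorem shoe_of_core (hr : 0 < r) (hρ : r ≤ ρ) {a b : Plane} (hab : a ≠ b)
    (core : ∀ θ, Par (dist a b / 2) ρ r θ → Core (dist a b / 2) ρ r θ) {S : Set Plane}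
    (hS : IsMinimizer r (stadium (ρ + r) a b) S) (st : Prop) : Horseshoe st r (ρ + r) a b S := by
  obtain ⟨A, hA⟩ := exists_aff hab
  have hL : 0 < dist a b / 2 := half_pos (dist_pos.2 hab)
  obtain ⟨θ, h⟩ := exists_par hL hr hρ
  obtain ⟨S, rfl⟩ := A.surjective.image_surjective S
  obtain ⟨⟨k1, k2, k3⟩, k4⟩ := (minimizer_image A hA (add_pos h.ρ0 hr) S).1 hS
  rcases h.unique (core θ h) k1 k2 k3
    ((k4 _ ⟨h.compact, h.conn, fun q hq => h.cover hq⟩).trans h.meas) with e | e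
  · rw [e]; exact h.shoe A hA st
  · have n : (fun z : ℂ => -z) '' seg (dist a b / 2) = seg (dist a b / 2) := by
      ext w
      constructor
      · rintro ⟨v, hv, rfl⟩
        rw [mem_seg hL] at hv ⊢
        simpa using hv
      · intro hw
        refine ⟨-w, ?_, neg_neg w⟩
        rw [mem_seg hL] at hw ⊢
        simpa using hw
    rw [e, image_image]
    refine h.shoe ((LinearIsometryEquiv.neg ℝ).toAffineIsometryEquiv.trans A) ?_ st
    exact (image_image A (fun z : ℂ => -z) _).symm.trans (by rw [n, hA])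

/-- The exact threshold in both readings, given the lower bound for all stadia above it. -/
theorem exact_shoe (hr : 0 < r)
    (core : ∀ L ρ θ, Par L ρ r θ → (√6 - √2) * r < ρ → Core L ρ r θ) (st : Prop) :
    IsLUB {C : ℝ | 1 < C ∧ ∃ a b : Plane, a ≠ b ∧ ∃ S : Set Plane,
      IsMinimizer r (stadium (C * r) a b) S ∧ ¬ Horseshoe st r (C * r) a b S} (1 + √6 - √2) := by
  have hu : √2 ≤ 1.42 := Real.sqrt_le_iff.2 ⟨by norm_num, by norm_num⟩
  have hv : 2.44 ≤ √6 := Real.le_sqrt_of_sq_le (by norm_num)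
  constructor
  · rintro C ⟨-, a, b, hab, S, hS, hn⟩
    by_contra c
    push Not at c
    have e : C * r = (C - 1) * r + r := by ring
    rw [e] at hS hn
    exact hn (shoe_of_core hr (by nlinarith) hab (fun θ h => core _ _ θ h (by nlinarith)) hS st)
  · refine fun B hB => (exact_of_core hr core).2 fun C ⟨c, a, b, hab, S, hS, hn⟩ =>
      hB ⟨c, a, b, hab, S, hS, fun ⟨g, p, q, k1, k2, k3, k4, k5, _, k6⟩ =>
        hn ⟨g, p, q, k1, k2, k3, k4, k5, k6⟩⟩

end Pool.Agent.Lib.MP_4b56aa_gt.Out
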