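import Pool.Agent.Lib.MP_4b56aa_gt.Out.OShape

namespace Pool.Agent.Lib.MP_4b56aa_gt.Out

open Set MeasureTheory Metric Pool.Agent.Lib.MP_4b56aa_gt.Red

/-- The lower bound with its equality case, for continua inside the stadium. -/
def Core (L ρ r θ : ℝ) : Prop :=
  ∀ S : Set ℂ, IsCompact S → IsConnected S → (∀ x ∈ S, infDist x (seg L) ≤ ρ + r) →
    (∀ q, infDist q (seg L) = ρ + r → q ∈ cthickening r S) →
    μH[1] S ≤ ENNReal.ofReal (Lst L ρ r θ) →
    ENNReal.ofReal (Lst L ρ r θ) ≤ μH[1] S ∧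
      ((∀ x ∈ S, x ∈ Hs L ρ r θ) ∨ ∀ x ∈ S, -x ∈ Hs L ρ r θ)

variable {L ρ r θ : ℝ}

/-- A covering continuum that is not longer than the horseshoe is the horseshoe. -/
theorem Par.unique (h : Par L ρ r θ) (core : Core L ρ r θ) {S : Set ℂ} (hS : IsCompact S)
    (hc : IsConnected S) (cov : ∀ q, infDist q (seg L) = ρ + r → q ∈ cthickening r S)
    (hle : μH[1] S ≤ ENNReal.ofReal (Lst L ρ r θ)) :
    S = Hs L ρ r θ ∨ S = (fun z => -z) '' Hs L ρ r θ := by
  have R0 : 0 < ρ + r := add_pos h.ρ0 h.hr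
  have sne : (seg L).Nonempty := ⟨_, left_mem_segment ℝ _ _⟩
  have sK : IsCompact (seg L) := seg_compact _ _
  have sC : Convex ℝ (seg L) := convex_segment _ _
  have kC : Convex ℝ (cthickening (ρ + r) (seg L)) := sC.cthickening _
  choose π hπ using exists_isNear (sK.cthickening (r := ρ + r))
    (sne.mono (self_subset_cthickening _))
  have lip : LipschitzWith 1 π := LipschitzWith.mk_one fun x y => (hπ x).lip kC (hπ y)
  have fix : ∀ x, infDist x (seg L) ≤ ρ + r → π x = x := fun x hx => by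
    have := (hπ x).2 x ((mem_cth sne R0.le).2 hx)
    rw [dist_self] at this
    exact (dist_le_zero.1 this).symm
  have m1 : μH[1] (π '' S) ≤ μH[1] S := by
    simpa using lip.hausdorffMeasure_image_le zero_le_one S
  have c1 : IsCompact (π '' S) := hS.image lip.continuous
  obtain ⟨low, sub⟩ := core (π '' S) c1 (hc.image _ lip.continuous.continuousOn)
    (by rintro _ ⟨x, -, rfl⟩; exact (mem_cth sne R0.le).1 (hπ x).1)
    (fun q hq => by
      have := cov q hq
      rw [hS.cthickening_eq_biUnion_closedBall h.hr.le, mem_iUnion₂] at this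
      obtain ⟨x, hx, hd⟩ := this
      refine mem_cthickening_of_dist_le q (π x) r _ ⟨x, hx, rfl⟩ (le_trans ?_ hd)
      have := lip.dist_le_mul q x
      rwa [fix q hq.le, NNReal.coe_one, one_mul] at this)
    (m1.trans hle)
  have inside : ∀ x ∈ S, infDist (π x) (seg L) < ρ + r := fun x hx => by
    rcases sub with s | s
    · exact h.dI_lt (s _ ⟨x, hx, rfl⟩)
    · rw [← dI_neg h.hL]; exact h.dI_lt (s _ ⟨x, hx, rfl⟩)
  have eS : π '' S = S := by
    rw [image_congr (g := id) fun x hx => ?_, image_id]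
    refine fix x (not_lt.1 fun c => ?_)
    exact (inside x hx).ne (infDist_near_cth sK sC sne R0 c.le (hπ x))
  rw [eS] at low sub
  have fin : μH[1] S ≠ ⊤ := ne_top_of_le_ne_top ENNReal.ofReal_ne_top hle
  rcases sub with s | s
  · exact Or.inl (eq_of_meas hS.isClosed hc.nonempty h.conn.isPreconnected s fin (h.meas.trans low))
  · refine Or.inr (eq_of_meas hS.isClosed hc.nonempty
      (h.conn.isPreconnected.image _ continuous_neg.continuousOn)
      (fun x hx => ⟨-x, s x hx, neg_neg x⟩) fin ?_)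
    rw [meas_neg]
    exact h.meas.trans low

theorem exists_aff {a b : Plane} (hab : a ≠ b) :
    ∃ A : ℂ ≃ᵃⁱ[ℝ] Plane, A '' seg (dist a b / 2) = segment ℝ a b := by
  obtain ⟨f, hf, hsurj, him⟩ := exists_iso hab
  exact ⟨IsometryEquiv.toRealAffineIsometryEquiv ⟨Equiv.ofBijective f ⟨hf.injective, hsurj⟩, hf⟩,
    him⟩

theorem admissible_image (A : ℂ ≃ᵃⁱ[ℝ] Plane) {a b : Plane} (hA : A '' seg L = segment ℝ a b)
    {R : ℝ} (hR : 0 < R) (S : Set ℂ) : Admissible r (stadium R a b) (A '' S) ↔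
      IsCompact S ∧ IsConnected S ∧ {q | infDist q (seg L) = R} ⊆ cthickening r S := by
  have hM : ∀ z, A z ∈ stadium R a b ↔ infDist z (seg L) = R := fun z => by
    rw [stadium, mem_frontier_cth (seg_compact a b) (convex_segment a b)
      ⟨a, left_mem_segment ℝ a b⟩ hR, ← hA, infDist_image A.isometry]
  have hth : ∀ z, A z ∈ cthickening r (A '' S) ↔ z ∈ cthickening r S := fun z => by
    rw [mem_cthickening_iff, mem_cthickening_iff, infEDist_image A.isometry]
  refine and_congr A.toHomeomorph.isCompact_image (and_congr A.toHomeomorph.isConnected_image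
    ⟨fun k z hz => (hth z).1 (k ((hM z).2 hz)), fun k p hp => ?_⟩)
  obtain ⟨z, rfl⟩ := A.surjective p
  exact (hth z).2 (k ((hM z).1 hp))

theorem minimizer_image (A : ℂ ≃ᵃⁱ[ℝ] Plane) {a b : Plane} (hA : A '' seg L = segment ℝ a b)
    {R : ℝ} (hR : 0 < R) (S : Set ℂ) : IsMinimizer r (stadium R a b) (A '' S) ↔
      (IsCompact S ∧ IsConnected S ∧ {q | infDist q (seg L) = R} ⊆ cthickening r S) ∧
      ∀ T : Set ℂ, IsCompact T ∧ IsConnected T ∧ {q | infDist q (seg L) = R} ⊆ cthickening r T →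
        μH[1] S ≤ μH[1] T := by
  have ms : ∀ T : Set ℂ, μH[1] (A '' T) = μH[1] T := fun T =>
    A.isometry.hausdorffMeasure_image (Or.inl zero_le_one) T
  refine and_congr (admissible_image A hA hR S) ⟨fun k T hT => ?_, fun k T hT => ?_⟩
  · rw [← ms, ← ms T]
    exact k _ ((admissible_image A hA hR T).2 hT)
  · obtain ⟨T, rfl⟩ := A.surjective.image_surjective T
    rw [ms, ms]
    exact k _ ((admissible_image A hA hR T).1 hT)

theorem exists_minimizer {R : ℝ} (hr : 0 ≤ r) (hR : 0 < R) {a b : Plane} (hab : a ≠ b) :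
    ∃ S, IsMinimizer r (stadium R a b) S := by
  obtain ⟨A, hA⟩ := exists_aff hab
  have hL : 0 < dist a b / 2 := half_pos (dist_pos.2 hab)
  obtain ⟨S, hS⟩ := exists_min (M := {q | infDist q (seg (dist a b / 2)) = R})
    (((seg_compact _ _).cthickening (r := R)).isBounded.subset fun q hq =>
      (mem_cth ⟨_, left_mem_segment ℝ _ _⟩ hR.le).2 (le_of_eq hq))
    ⟨⟨0, R⟩, (dI_mid hL (by simpa using hL.le)).trans (abs_of_pos hR)⟩ hr
  exact ⟨_, (minimizer_image A hA hR S).2 hS⟩

theorem horseshoe_of_core (hr : 0 < r) (hρ : r ≤ ρ) {a b : Plane} (hab : a ≠ b)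
    (core : ∀ θ, Par (dist a b / 2) ρ r θ → Core (dist a b / 2) ρ r θ) {S : Set Plane}
    (hS : IsMinimizer r (stadium (ρ + r) a b) S) : IsHorseshoe r (ρ + r) a b S := by
  obtain ⟨A, hA⟩ := exists_aff hab
  have hL : 0 < dist a b / 2 := half_pos (dist_pos.2 hab)
  obtain ⟨θ, h⟩ := exists_par hL hr hρ
  obtain ⟨S, rfl⟩ := A.surjective.image_surjective S
  obtain ⟨⟨k1, k2, k3⟩, k4⟩ := (minimizer_image A hA (add_pos h.ρ0 hr) S).1 hS
  rcases h.unique (core θ h) k1 k2 k3
    ((k4 _ ⟨h.compact, h.conn, fun q hq => h.cover hq⟩).trans h.meas) with e | e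
  · rw [e]; exact h.horseshoe A hA
  · have n : (fun z : ℂ => -z) '' seg (dist a b / 2) = seg (dist a b / 2) := by
      ext w
      constructor
      · rintro ⟨v, hv, rfl⟩
        rw [mem_seg hL] at hv ⊢
        simpa using hv
      · intro hw
        refine ⟨-w, ?_, neg_neg w⟩
        rw [mem_seg hL] at hw ⊢
        simpa using hw
    rw [e, image_image]
    refine h.horseshoe ((LinearIsometryEquiv.neg ℝ).toAffineIsometryEquiv.trans A) ?_
    exact (image_image A (fun z : ℂ => -z) _).symm.trans (by rw [n, hA])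

/-- The exact threshold, given the lower bound for all stadia above it. -/
theorem exact_of_core (hr : 0 < r)
    (core : ∀ L ρ θ, Par L ρ r θ → (√6 - √2) * r < ρ → Core L ρ r θ) :
    IsLUB {C : ℝ | 1 < C ∧ ∃ a b : Plane, a ≠ b ∧ ∃ S : Set Plane,
      IsMinimizer r (stadium (C * r) a b) S ∧ ¬ IsHorseshoe r (C * r) a b S} (1 + √6 - √2) := by
  have hu : √2 ≤ 1.42 := Real.sqrt_le_iff.2 ⟨by norm_num, by norm_num⟩
  have hv : 2.44 ≤ √6 := Real.le_sqrt_of_sq_le (by norm_num)
  constructor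
  · rintro C ⟨-, a, b, hab, S, hS, hn⟩
    by_contra c
    push Not at c
    have e : C * r = (C - 1) * r + r := by ring
    rw [e] at hS hn
    exact hn (horseshoe_of_core hr (by nlinarith) hab
      (fun θ h => core _ _ θ h (by nlinarith)) hS)
  · intro B hB
    have key : ∀ C, 1 < C → C < 1 + √6 - √2 → C ≤ B := fun C c1 c2 => by
      obtain ⟨l, hl, hn⟩ := no_horseshoe hr (R := C * r) (by nlinarith) (by nlinarith)
      have d : dist (0 : Plane) (EuclideanSpace.single 0 l) = l := by simp [abs_of_pos hl]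
      have ne : (0 : Plane) ≠ EuclideanSpace.single 0 l := by
        rw [← dist_pos, d]; exact hl
      obtain ⟨S, hS⟩ := exists_minimizer hr.le (R := C * r) (by positivity) ne
      exact hB ⟨c1, _, _, ne, S, hS, hn _ _ d.ge S hS⟩
    by_contra c
    push Not at c
    have := key ((max B 1 + (1 + √6 - √2)) / 2) (by linarith [le_max_right B 1])
      (by linarith [max_lt c (show 1 < 1 + √6 - √2 by linarith)])
    linarith [le_max_left B 1, max_lt c (show 1 < 1 + √6 - √2 by linarith)]

end Pool.Agent.Lib.MP_4b56aa_gt.Out
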