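import Pool.Agent.Lib.MP_4b56aa_gt.Red.RNet
import Pool.Agent.Lib.MP_4b56aa_gt.Proj

/-! Lower semicontinuity of length on continua and existence of minimizers. -/

namespace Pool.Agent.Lib.MP_4b56aa_gt.Out

open Set MeasureTheory Metric Filter Topology TopologicalSpace Pool.Agent.Lib.MP_4b56aa_gt.Red

/-- The part of a connected set near one of its points is at least as long as the radius. -/
theorem ofReal_le_measure {S : Set ℂ} (hc : IsPreconnected S) {x y : ℂ} (hx : x ∈ S) (hy : y ∈ S)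
    {ε : ℝ} (hε : ε ≤ dist x y) : ENNReal.ofReal ε ≤ μH[1] (S ∩ ball x ε) := by
  have h1 : Ico 0 ε ⊆ (fun z => dist x z) '' (S ∩ ball x ε) := fun t ht => by
    obtain ⟨z, hz, e⟩ := hc.intermediate_value hx hy (f := fun z => dist x z) (by fun_prop)
      (show t ∈ Icc (dist x x) (dist x y) from ⟨by simpa using ht.1, ht.2.le.trans hε⟩)
    exact ⟨z, ⟨hz, by rw [mem_ball, dist_comm]; exact e.trans_lt ht.2⟩, e⟩
  have h2 := (LipschitzWith.dist_right x).hausdorffMeasure_image_le zero_le_one (S ∩ ball x ε)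
  have h3 := measure_mono (μ := μH[1]) h1
  rw [hausdorffMeasure_real, Real.volume_Ico, sub_zero] at h3
  rw [hausdorffMeasure_real] at h2
  simpa using h3.trans h2

theorem cover_induction {S : Set ℂ} (hc : IsConnected S) {U : ℕ → Set ℂ} {F : Finset ℕ}
    (hU : ∀ j, IsOpen (U j)) (hF : ∀ x ∈ S, ∃ j ∈ F, x ∈ U j) (Q : Finset ℕ → Prop)
    (base : ∀ j, Q {j})
    (step : ∀ G j k, j ∉ G → k ∈ G → Q G → (U j ∩ U k).Nonempty → Q (insert j G)) :
    ∃ G ⊆ F, Q G ∧ ∀ x ∈ S, ∃ j ∈ G, x ∈ U j := by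
  classical
  obtain ⟨x0, hx0⟩ := hc.nonempty
  obtain ⟨j0, hj0, hx0'⟩ := hF x0 hx0
  obtain ⟨G, hG, hmax⟩ := (F.powerset.filter fun G => j0 ∈ G ∧ Q G).exists_max_image Finset.card
    ⟨{j0}, Finset.mem_filter.2 ⟨by simpa using hj0, Finset.mem_singleton_self _, base j0⟩⟩
  obtain ⟨hGF, hG0, hQ⟩ := Finset.mem_filter.1 hG
  rw [Finset.mem_powerset] at hGF
  refine ⟨G, hGF, hQ, ?_⟩
  by_contra hn
  push Not at hn
  obtain ⟨x, hx, hx'⟩ := hn
  obtain ⟨j, hj, hxj⟩ := hF x hx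
  obtain ⟨a, -, ha1, ha2⟩ := hc.isPreconnected (⋃ k ∈ G, U k) (⋃ k ∈ F \ G, U k)
    (isOpen_biUnion fun k _ => hU k) (isOpen_biUnion fun k _ => hU k)
    (fun y hy => by
      obtain ⟨k, hk, hyk⟩ := hF y hy
      by_cases c : k ∈ G
      · exact Or.inl (mem_biUnion c hyk)
      · exact Or.inr (mem_biUnion (Finset.mem_sdiff.2 ⟨hk, c⟩) hyk))
    ⟨x0, hx0, mem_biUnion hG0 hx0'⟩
    ⟨x, hx, mem_biUnion (Finset.mem_sdiff.2 ⟨hj, fun c => hx' j c hxj⟩) hxj⟩
  simp only [mem_iUnion, exists_prop] at ha1 ha2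
  obtain ⟨k, hk, hak⟩ := ha2
  obtain ⟨k', hk', hak'⟩ := ha1
  obtain ⟨hk1, hk2⟩ := Finset.mem_sdiff.1 hk
  have := hmax (insert k G) (Finset.mem_filter.2 ⟨Finset.mem_powerset.2
    (Finset.insert_subset hk1 hGF), Finset.mem_insert_of_mem hG0,
    step G k k' hk2 hk' hQ ⟨a, hak, hak'⟩⟩)
  rw [Finset.card_insert_of_notMem hk2] at this
  omega

/-- `A` is covered by `N` sets of size at most `η` whose sizes add up to at most `c`. -/
def Cov (A : Set ℂ) (η : ℝ) (N : ℕ) (c : ℝ) : Prop :=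
  ∃ (T : ℕ → Set ℂ) (w : ℕ → ℝ), (∀ i, 0 ≤ w i ∧ w i ≤ η) ∧
    (∀ i, ∀ x ∈ T i, ∀ y ∈ T i, dist x y ≤ w i) ∧ (∀ x ∈ A, ∃ i < N, x ∈ T i) ∧
    ∑ i ∈ Finset.range N, w i ≤ c

theorem Cov.add {A B : Set ℂ} {η c ω : ℝ} {N : ℕ} (h : Cov A η N c) (h0 : 0 ≤ ω) (hη : 0 ≤ η)
    (h1 : ∀ x ∈ B, ∀ y ∈ B, dist x y ≤ ω ∧ dist x y ≤ η) : Cov (A ∪ B) η (N + 1) (c + ω) := by
  obtain ⟨T, w, k1, k2, k3, k4⟩ := h
  refine ⟨fun i => if i = N then B else T i, fun i => if i = N then min ω η else w i,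
    fun i => ?_, fun i => ?_, fun x hx => ?_, ?_⟩
  · beta_reduce
    split_ifs
    · exact ⟨le_min h0 hη, min_le_right _ _⟩
    · exact k1 i
  · beta_reduce
    split_ifs
    · exact fun x hx y hy => le_min (h1 x hx y hy).1 (h1 x hx y hy).2
    · exact k2 i
  · rcases hx with hx | hx
    · obtain ⟨i, hi, hx⟩ := k3 x hx
      exact ⟨i, by omega, by simpa [hi.ne] using hx⟩
    · exact ⟨N, by omega, by simpa using hx⟩
  · rw [Finset.sum_range_succ, if_pos rfl, Finset.sum_congr rfl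
      fun i hi => if_neg (Finset.mem_range.1 hi).ne]
    linarith [min_le_left ω η]

theorem Cov.mono {A B : Set ℂ} {η c c' : ℝ} {N : ℕ} (h : Cov A η N c) (h1 : B ⊆ A) (h2 : c ≤ c') :
    Cov B η N c' := by
  obtain ⟨T, w, k1, k2, k3, k4⟩ := h
  exact ⟨T, w, k1, k2, fun x hx => k3 x (h1 hx), k4.trans h2⟩

/-- A continuum is covered economically by a bounded number of small sets. -/
theorem few_cover {S : Set ℂ} (hS : IsCompact S) (hc : IsConnected S) (hfin : μH[1] S ≠ ⊤)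
    {δ ε : ℝ} (hδ : 0 < δ) (hε : 0 < ε) : ∃ N : ℕ, Cov S (3 * δ) N ((μH[1] S).toReal + ε) ∧
      N * δ ≤ (μH[1] S).toReal + ε + δ := by
  classical
  obtain ⟨U, d, F, h1, h2, h3, h4, h5⟩ := exists_cover hS hfin hδ hε
  have tri : ∀ (j : ℕ) (B : Set ℂ), (∀ x ∈ B, ∃ y ∈ U j, dist x y ≤ δ) →
      ∀ x ∈ B, ∀ y ∈ B, dist x y ≤ 3 * δ := fun j B hB x hx y hy => by
    obtain ⟨x', a1, a2⟩ := hB x hx
    obtain ⟨y', b1, b2⟩ := hB y hy
    linarith [dist_triangle4_right x y x' y', h3 j x' a1 y' b1, (h2 j).2]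
  obtain ⟨G, hG, hQ, cov⟩ := cover_induction hc h1 h4
    (fun G => ∀ (B : ℕ → Set ℂ) (ω : ℕ → ℝ), (∀ j, U j ⊆ B j) → (∀ j, 0 ≤ ω j) →
      (∀ j, ∀ x ∈ B j, ∀ y ∈ B j, dist x y ≤ ω j) → (∀ j, ∀ x ∈ B j, ∃ y ∈ U j, dist x y ≤ δ) →
      ∃ N : ℕ, Cov {x | ∃ j ∈ G, x ∈ B j} (3 * δ) N (∑ j ∈ G, ω j) ∧ N * δ ≤ ∑ j ∈ G, ω j + δ)
    (fun j B ω _ p2 p3 p4 => by
      have z : Cov ∅ (3 * δ) 0 0 := ⟨fun _ => ∅, fun _ => 0, fun _ => ⟨le_rfl, by linarith⟩,
        by simp, by simp, by simp⟩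
      refine ⟨1, (z.add (p2 j) (by linarith) fun x hx y hy =>
        ⟨p3 j x hx y hy, tri j _ (p4 j) x hx y hy⟩).mono (fun x hx => Or.inr (by simpa using hx))
        (by simp), ?_⟩
      simp [p2 j])
    (fun G j k hj hk hQ ⟨a, haj, hak⟩ B ω p1 p2 p3 p4 => by
      rw [Finset.sum_insert hj]
      by_cases big : δ ≤ ω j
      · obtain ⟨N, q1, q2⟩ := hQ B ω p1 p2 p3 p4
        refine ⟨N + 1, (q1.add (p2 j) (by linarith) fun x hx y hy =>
          ⟨p3 j x hx y hy, tri j _ (p4 j) x hx y hy⟩).mono ?_ (by linarith), by push_cast; linarith⟩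
        rintro x ⟨i, hi, hx⟩
        rcases Finset.mem_insert.1 hi with rfl | hi
        · exact Or.inr hx
        · exact Or.inl ⟨i, hi, hx⟩
      · obtain ⟨N, q1, q2⟩ := hQ (Function.update B k (B k ∪ B j))
          (Function.update ω k (ω k + ω j))
          (fun i => by
            by_cases e : i = k
            · subst e; rw [Function.update_self]; exact (p1 i).trans subset_union_left
            · rw [Function.update_of_ne e]; exact p1 i)
          (fun i => by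
            by_cases e : i = k
            · subst e; rw [Function.update_self]; exact add_nonneg (p2 i) (p2 j)
            · rw [Function.update_of_ne e]; exact p2 i)
          (fun i => by
            by_cases e : i = k
            · subst e
              rw [Function.update_self, Function.update_self]
              rintro x (hx | hx) y (hy | hy)
              · linarith [p3 i x hx y hy, p2 j]
              · linarith [p3 i x hx a (p1 i hak), p3 j a (p1 j haj) y hy, dist_triangle x a y]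
              · linarith [p3 j x hx a (p1 j haj), p3 i a (p1 i hak) y hy, dist_triangle x a y]
              · linarith [p3 j x hx y hy, p2 i]
            · rw [Function.update_of_ne e, Function.update_of_ne e]; exact p3 i)
          (fun i => by
            by_cases e : i = k
            · subst e
              rw [Function.update_self]
              rintro x (hx | hx)
              · exact p4 i x hx
              · exact ⟨a, hak, (p3 j x hx a (p1 j haj)).trans (not_le.1 big).le⟩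
            · rw [Function.update_of_ne e]; exact p4 i)
        have e : ∑ i ∈ G, Function.update ω k (ω k + ω j) i = ω j + ∑ i ∈ G, ω i := by
          rw [Finset.sum_update_of_mem hk, ← Finset.add_sum_erase G ω hk,
            Finset.sdiff_singleton_eq_erase]
          ring
        rw [e] at q1 q2
        refine ⟨N, q1.mono ?_ le_rfl, q2⟩
        rintro x ⟨i, hi, hx⟩
        rcases Finset.mem_insert.1 hi with rfl | hi
        · exact ⟨k, hk, by rw [Function.update_self]; exact Or.inr hx⟩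
        · refine ⟨i, hi, ?_⟩
          by_cases e : i = k
          · subst e; rw [Function.update_self]; exact Or.inl hx
          · rw [Function.update_of_ne e]; exact hx)
  obtain ⟨N, q1, q2⟩ := hQ U d (fun _ => subset_rfl) (fun j => (h2 j).1) h3
    fun j x hx => ⟨x, hx, by simpa using hδ.le⟩
  have := Finset.sum_le_sum_of_subset_of_nonneg hG fun j _ _ => (h2 j).1
  exact ⟨N, q1.mono cov (by linarith), by linarith⟩

/-- Semicontinuity: a set approximated by continua of length about `m` has length at most `m`. -/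
theorem golab {S : Set ℂ} {m : ℝ} (hm : 0 ≤ m)
    (h : ∀ η > 0, ∃ S' : Set ℂ, IsCompact S' ∧ IsConnected S' ∧ μH[1] S' ≤ ENNReal.ofReal (m + η) ∧
      ∀ x ∈ S, ∃ y ∈ S', dist x y < η) : μH[1] S ≤ ENNReal.ofReal m := by
  have key : ∀ δ : ℝ, 0 < δ → δ ≤ 1 → ∃ (N : ℕ) (T : Fin N → Set ℂ),
      (∀ i, ediam (T i) ≤ ENNReal.ofReal (5 * δ)) ∧ S ⊆ ⋃ i, T i ∧
      ∑ i, ediam (T i) ^ (1 : ℝ) ≤ ENNReal.ofReal (m + 4 * δ) := by
    intro δ hδ hδ1
    have p : 0 < δ * δ / (m + 3) := by positivity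
    have pl : δ * δ / (m + 3) ≤ δ := by
      rw [div_le_iff₀ (by linarith)]; nlinarith
    obtain ⟨S', a1, a2, a3, a4⟩ := h _ p
    have a5 := ENNReal.toReal_le_of_le_ofReal (by linarith) a3
    obtain ⟨N, ⟨T, w, k1, k2, k3, k4⟩, k5⟩ := few_cover a1 a2
      (ne_top_of_le_ne_top ENNReal.ofReal_ne_top a3) hδ hδ
    have dm : ∀ i, ediam (thickening (δ * δ / (m + 3)) (T i)) ≤
        ENNReal.ofReal (w i + 2 * (δ * δ / (m + 3))) := fun i =>
      ediam_le_of_forall_dist_le fun x hx y hy => by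
        obtain ⟨x', b1, b2⟩ := mem_thickening_iff.1 hx
        obtain ⟨y', c1, c2⟩ := mem_thickening_iff.1 hy
        linarith [dist_triangle4_right x y x' y', k2 i x' b1 y' c1]
    refine ⟨N, fun i => thickening (δ * δ / (m + 3)) (T i), fun i => (dm i).trans
      (ENNReal.ofReal_le_ofReal (by linarith [(k1 i).2])), fun x hx => ?_, ?_⟩
    · obtain ⟨y, hy, hd⟩ := a4 x hx
      obtain ⟨i, hi, hy'⟩ := k3 y hy
      exact mem_iUnion.2 ⟨⟨i, hi⟩, mem_thickening_iff.2 ⟨y, hy', hd⟩⟩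
    · simp only [ENNReal.rpow_one]
      refine (Finset.sum_le_sum fun (i : Fin N) _ => dm i).trans ?_
      rw [← ENNReal.ofReal_sum_of_nonneg fun (i : Fin N) _ => by linarith [(k1 i).1]]
      apply ENNReal.ofReal_le_ofReal
      rw [Fin.sum_univ_eq_sum_range fun i => w i + 2 * (δ * δ / (m + 3)), Finset.sum_add_distrib,
        Finset.sum_const, Finset.card_range, nsmul_eq_mul]
      have : N * (δ * δ / (m + 3)) ≤ δ := by
        rw [← mul_div_assoc, div_le_iff₀ (by linarith)]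
        nlinarith
      linarith
  have pos : ∀ j : ℕ, (0 : ℝ) < 1 / (j + 1) ∧ (1 : ℝ) / (j + 1) ≤ 1 := fun j =>
    ⟨Nat.one_div_pos_of_nat, by rw [div_le_one (by positivity)]; linarith [j.cast_nonneg (α := ℝ)]⟩
  choose N T h1 h2 h3 using fun j : ℕ => key _ (pos j).1 (pos j).2
  have lim : Tendsto (fun j : ℕ => (1 : ℝ) / (j + 1)) atTop (𝓝 0) :=
    tendsto_one_div_add_atTop_nhds_zero_nat
  have l1 : Tendsto (fun j : ℕ => ENNReal.ofReal (5 * (1 / (j + 1)))) atTop (𝓝 0) := by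
    simpa using ENNReal.tendsto_ofReal (lim.const_mul 5)
  have l2 : Tendsto (fun j : ℕ => ENNReal.ofReal (m + 4 * (1 / (j + 1)))) atTop
      (𝓝 (ENNReal.ofReal m)) := by
    simpa using ENNReal.tendsto_ofReal ((lim.const_mul 4).const_add m)
  refine (Measure.hausdorffMeasure_le_liminf_sum 1 S _ l1 T (.of_forall h1)
    (.of_forall h2)).trans ?_
  rw [← l2.liminf_eq]
  exact liminf_le_liminf (.of_forall h3)

/-- Existence of a shortest continuum whose closed `r`-neighbourhood contains a bounded set. -/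
theorem exists_min {M : Set ℂ} (hM : Bornology.IsBounded M) (hne : M.Nonempty) {r : ℝ}
    (hr : 0 ≤ r) : ∃ S : Set ℂ, (IsCompact S ∧ IsConnected S ∧ M ⊆ cthickening r S) ∧
      ∀ T : Set ℂ, IsCompact T ∧ IsConnected T ∧ M ⊆ cthickening r T → μH[1] S ≤ μH[1] T := by
  obtain ⟨q0, hq0⟩ := hne
  set m := ⨅ (T : Set ℂ) (_ : IsCompact T ∧ IsConnected T ∧ M ⊆ cthickening r T), μH[1] T with hm
  have low : ∀ T : Set ℂ, IsCompact T ∧ IsConnected T ∧ M ⊆ cthickening r T → m ≤ μH[1] T :=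
    fun T hT => iInf₂_le T hT
  by_cases top : m = ⊤
  · obtain ⟨ρ, hρ⟩ := hM.subset_closedBall q0
    have ρ0 : 0 ≤ ρ := by simpa using hρ hq0
    refine ⟨closedBall q0 ρ, ⟨isCompact_closedBall _ _,
      (convex_closedBall _ _).isConnected (nonempty_closedBall.2 ρ0),
      hρ.trans (self_subset_cthickening _)⟩, fun T hT => le_top.trans (top ▸ low T hT)⟩
  have pos : ∀ j : ℕ, (0 : ℝ) < 1 / (j + 1) ∧ (1 : ℝ) / (j + 1) ≤ 1 := fun j =>
    ⟨Nat.one_div_pos_of_nat, by rw [div_le_one (by positivity)]; linarith [j.cast_nonneg (α := ℝ)]⟩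
  have ex : ∀ j : ℕ, ∃ T : Set ℂ, (IsCompact T ∧ IsConnected T ∧ M ⊆ cthickening r T) ∧
      μH[1] T ≤ ENNReal.ofReal (m.toReal + 1 / (j + 1)) := fun j => by
    have := ENNReal.lt_add_right top (show ENNReal.ofReal (1 / (j + 1)) ≠ 0 by
      simpa using Nat.cast_add_one_pos j)
    conv_lhs at this => rw [hm]
    simp only [iInf_lt_iff] at this
    obtain ⟨T, hT, hl⟩ := this
    refine ⟨T, hT, ?_⟩
    rw [ENNReal.ofReal_add ENNReal.toReal_nonneg (pos j).1.le, ENNReal.ofReal_toReal top]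
    exact hl.le
  choose T hT hl using ex
  have bd : ∀ j, T j ⊆ closedBall q0 (r + (m.toReal + 1)) := fun j x hx => by
    obtain ⟨y, hy⟩ := exists_isNear (hT j).1 (hT j).2.1.1 q0
    have d1 : dist q0 y ≤ r := hy.infDist_eq ▸ (mem_cth (hT j).2.1.1 hr).1 ((hT j).2.2 hq0)
    have d2 := ((ofReal_le_measure (hT j).2.1.2 hy.1 hx le_rfl).trans
      (measure_mono inter_subset_left)).trans (hl j)
    rw [ENNReal.ofReal_le_ofReal_iff (by linarith [(pos j).1, m.toReal_nonneg])] at d2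
    rw [mem_closedBall, dist_comm]
    linarith [dist_triangle q0 y x, (pos j).2]
  obtain ⟨K, -, φ, hφ, lim⟩ := (NonemptyCompacts.isCompact_subsets_of_isCompact
    (isCompact_closedBall q0 (r + (m.toReal + 1)))).tendsto_subseq
    (x := fun j => (⟨⟨T j, (hT j).1⟩, (hT j).2.1.1⟩ : NonemptyCompacts ℂ)) bd
  have app : ∀ η > 0, ∃ j : ℕ, (1 : ℝ) / (j + 1) ≤ η ∧ (∀ x ∈ (K : Set ℂ), ∃ y ∈ T j, dist x y < η) ∧
      ∀ y ∈ T j, ∃ x ∈ (K : Set ℂ), dist x y < η := fun η hη => by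
    have e1 := (Metric.tendsto_nhds.1 lim) η hη
    have e2 := (tendsto_one_div_add_atTop_nhds_zero_nat.comp hφ.tendsto_atTop).eventually_le_const hη
    obtain ⟨k, k1, k2⟩ := (e1.and e2).exists
    rw [dist_comm, NonemptyCompacts.dist_eq] at k1
    have fin : hausdorffEDist (K : Set ℂ) (T (φ k)) ≠ ⊤ :=
      hausdorffEDist_ne_top_of_nonempty_of_bounded K.nonempty (hT _).2.1.1 K.isCompact.isBounded
        (hT _).1.isBounded
    exact ⟨φ k, k2, fun x hx => exists_dist_lt_of_hausdorffDist_lt hx k1 fin,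
      fun y hy => exists_dist_lt_of_hausdorffDist_lt' hy k1 fin⟩
  refine ⟨K, ⟨K.isCompact, ⟨K.nonempty, ?_⟩, fun q hq => ?_⟩, fun T' hT' => le_trans ?_ (low T' hT')⟩
  · rw [isPreconnected_closed_iff]
    intro A B hA hB hAB hKA hKB
    by_contra hn
    have dj : Disjoint ((K : Set ℂ) ∩ A) (K ∩ B) :=
      Set.disjoint_left.2 fun x h1 h2 => hn ⟨x, h1.1, h1.2, h2.2⟩
    obtain ⟨δ, hδ, dj'⟩ := dj.exists_thickenings (K.isCompact.inter_right hA)
      (K.isCompact.isClosed.inter hB)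
    obtain ⟨j, -, k1, k2⟩ := app δ hδ
    have hit : ∀ C : Set ℂ, ((K : Set ℂ) ∩ C).Nonempty →
        (T j ∩ thickening δ (K ∩ C)).Nonempty := by
      rintro C ⟨x, hx⟩
      obtain ⟨y, hy, hd⟩ := k1 x hx.1
      exact ⟨y, hy, mem_thickening_iff.2 ⟨x, hx, by rwa [dist_comm]⟩⟩
    obtain ⟨z, -, z1, z2⟩ := (hT j).2.1.2 _ _ isOpen_thickening isOpen_thickening
      (fun y hy => by
        obtain ⟨x, hx, hd⟩ := k2 y hy
        rw [dist_comm] at hd
        exact (hAB hx).imp (fun c => mem_thickening_iff.2 ⟨x, ⟨hx, c⟩, hd⟩)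
          fun c => mem_thickening_iff.2 ⟨x, ⟨hx, c⟩, hd⟩) (hit A hKA) (hit B hKB)
    exact Set.disjoint_left.1 dj' z1 z2
  · rw [mem_cth K.nonempty hr]
    refine le_of_forall_pos_le_add fun η hη => ?_
    obtain ⟨j, -, -, k2⟩ := app η hη
    obtain ⟨y, hy⟩ := exists_isNear (hT j).1 (hT j).2.1.1 q
    have d1 : dist q y ≤ r := hy.infDist_eq ▸ (mem_cth (hT j).2.1.1 hr).1 ((hT j).2.2 hq)
    obtain ⟨x, hx, hd⟩ := k2 y hy.1
    linarith [infDist_le_dist_of_mem (x := q) hx, dist_triangle_right q x y]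
  · rw [← ENNReal.ofReal_toReal top]
    refine golab ENNReal.toReal_nonneg fun η hη => ?_
    obtain ⟨j, k0, k1, -⟩ := app η hη
    exact ⟨T j, (hT j).1, (hT j).2.1, (hl j).trans (ENNReal.ofReal_le_ofReal (by linarith)), k1⟩

end Pool.Agent.Lib.MP_4b56aa_gt.Out
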