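import Pool.Agent.Lib.MP_4b56aa_gt.Out.ODefs
import Pool.Agent.Lib.MP_4b56aa_gt.Out.OExist
import Pool.Agent.Lib.MP_4b56aa_gt.Red.RPlan
import Pool.Agent.Lib.MP_4b56aa_gt.Comp

namespace Pool.Agent.Lib.MP_4b56aa_gt.Out

open Set MeasureTheory Metric Pool.Agent.Lib.MP_4b56aa_gt.Red

variable {L ρ r θ : ℝ}

theorem exists_par (hL : 0 < L) (hr : 0 < r) (hρ : r ≤ ρ) : ∃ θ, Par L ρ r θ := by
  have := intermediate_value_Ioo (f := fun t => ρ + L * Real.sin t - (ρ + r) * Real.cos t)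
    (show (0 : ℝ) ≤ Real.pi / 2 by positivity) (by fun_prop)
  obtain ⟨θ, h1, h2⟩ := this (show (0 : ℝ) ∈ _ from ⟨by simpa using hr, by simp; linarith⟩)
  exact ⟨θ, hL, hr, hρ, h1.1, h1.2, by simp only at h2; linarith⟩

theorem Par.ρ0 (h : Par L ρ r θ) : 0 < ρ := h.hr.trans_le h.hρ

theorem Par.sin0 (h : Par L ρ r θ) : 0 < Real.sin θ :=
  Real.sin_pos_of_pos_of_lt_pi h.h0 (by linarith [h.h1, Real.pi_pos])

theorem Par.cos0 (h : Par L ρ r θ) : 0 < Real.cos θ :=
  Real.cos_pos_of_mem_Ioo ⟨by linarith [h.h0, Real.pi_pos], h.h1⟩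

theorem Par.mu0 (h : Par L ρ r θ) : 0 < mu L ρ r θ := by
  have e := Real.sin_sq_add_cos_sq θ
  have k : (L * Real.cos θ + (ρ + r) * Real.sin θ) ^ 2 = L ^ 2 + (ρ + r) ^ 2 - ρ ^ 2 := by
    have : ρ = (ρ + r) * Real.cos θ - L * Real.sin θ := by linarith [h.rel]
    have e2 : ρ ^ 2 = ((ρ + r) * Real.cos θ - L * Real.sin θ) ^ 2 := by rw [← this]
    linear_combination e2 + (L ^ 2 + (ρ + r) ^ 2) * e
  have p : 0 < L * Real.cos θ + (ρ + r) * Real.sin θ := by
    have := h.hL; have := h.hr; have := h.ρ0; have := h.sin0; have := h.cos0; positivity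
  unfold mu
  by_contra c
  nlinarith [h.hr, h.ρ0, h.hL, mul_pos h.hr h.ρ0]

theorem Par.lt_Uh (h : Par L ρ r θ) : L < Uh L ρ θ := by
  unfold Uh
  nlinarith [h.ρ0, h.h1, Real.pi_pos]

theorem clamp_mid {u : ℝ} (h1 : -L ≤ u) (h2 : u ≤ L) : clamp L u = u := by
  unfold clamp; rw [min_eq_left h2, max_eq_right h1]

theorem clamp_right {u : ℝ} (hL : 0 ≤ L) (h : L ≤ u) : clamp L u = L := by
  unfold clamp; rw [min_eq_right h, max_eq_right (by linarith)]

theorem clamp_left {u : ℝ} (hL : 0 ≤ L) (h : u ≤ -L) : clamp L u = -L := by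
  unfold clamp; rw [min_eq_left (by linarith), max_eq_left h]

theorem clamp_neg (hL : 0 ≤ L) (u : ℝ) : clamp L (-u) = -clamp L u := by
  rcases le_total u (-L) with h | h
  · rw [clamp_left hL h, clamp_right hL (by linarith), neg_neg]
  rcases le_total u L with h' | h'
  · rw [clamp_mid h h', clamp_mid (by linarith) (by linarith)]
  · rw [clamp_right hL h', clamp_left hL (by linarith)]

theorem Gam_re (u : ℝ) : (Gam L ρ u).re = clamp L u + ρ * Real.sin ((u - clamp L u) / ρ) := by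
  simp only [Gam, Complex.add_re, Complex.ofReal_re, Complex.re_ofReal_mul, nv_re]
  rw [add_comm (-(Real.pi / 2)), ← sub_eq_add_neg, Real.cos_sub_pi_div_two]

theorem Gam_im (u : ℝ) : (Gam L ρ u).im = -(ρ * Real.cos ((u - clamp L u) / ρ)) := by
  simp only [Gam, Complex.add_im, Complex.ofReal_im, Complex.im_ofReal_mul, nv_im]
  rw [add_comm (-(Real.pi / 2)), ← sub_eq_add_neg, Real.sin_sub_pi_div_two]
  ring

/-- Reflection in the imaginary axis. -/
def mir (z : ℂ) : ℂ := ⟨-z.re, z.im⟩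

theorem Gam_neg (hL : 0 ≤ L) (u : ℝ) : Gam L ρ (-u) = mir (Gam L ρ u) := by
  have e : (-u - -clamp L u) / ρ = -((u - clamp L u) / ρ) := by ring
  apply Complex.ext
  · simp only [mir, Gam_re, clamp_neg hL, e, Real.sin_neg]; ring
  · simp only [mir, Gam_im, clamp_neg hL, e, Real.cos_neg]

theorem Gam_right (hL : 0 ≤ L) (hρ : 0 < ρ) {φ : ℝ} (h : 0 ≤ φ) :
    Gam L ρ (L + ρ * φ) = L + ρ * nv (-(Real.pi / 2) + φ) := by
  unfold Gam
  rw [clamp_right hL (by nlinarith), add_sub_cancel_left, mul_div_cancel_left₀ _ hρ.ne']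

theorem Par.end_re (h : Par L ρ r θ) : (Gam L ρ (Uh L ρ θ)).re = L + ρ * Real.sin θ := by
  rw [Gam_re, clamp_right h.hL.le h.lt_Uh.le, Uh, add_sub_cancel_left,
    mul_div_cancel_left₀ _ h.ρ0.ne', Real.sin_pi_sub]

theorem Par.end_im (h : Par L ρ r θ) : (Gam L ρ (Uh L ρ θ)).im = ρ * Real.cos θ := by
  rw [Gam_im, clamp_right h.hL.le h.lt_Uh.le, Uh, add_sub_cancel_left,
    mul_div_cancel_left₀ _ h.ρ0.ne', Real.cos_pi_sub]
  ring

theorem mem_arm {a v : ℂ} {m s : ℝ} (hm : 0 < m) (h0 : 0 ≤ s) (h1 : s ≤ m) :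
    a + s * v ∈ segment ℝ a (a + m * v) := by
  refine ⟨1 - s / m, s / m, by rw [sub_nonneg, div_le_one hm]; exact h1, by positivity, by ring, ?_⟩
  have : (m : ℂ) ≠ 0 := Complex.ofReal_ne_zero.2 hm.ne'
  simp only [Complex.real_smul]
  push_cast
  field_simp
  ring

theorem arm_mem {a v z : ℂ} {m : ℝ} (hm : 0 ≤ m) (h : z ∈ segment ℝ a (a + m * v)) :
    ∃ s : ℝ, 0 ≤ s ∧ s ≤ m ∧ z = a + s * v := by
  obtain ⟨p, t, hp, ht, e, rfl⟩ := h
  obtain rfl : p = 1 - t := by linarith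
  refine ⟨t * m, by positivity, by nlinarith, ?_⟩
  simp only [Complex.real_smul]
  push_cast
  ring

theorem Par.mem_bot (h : Par L ρ r θ) {x : ℝ} (h1 : -L ≤ x) (h2 : x ≤ L) :
    (⟨x, -ρ⟩ : ℂ) ∈ Hs L ρ r θ := by
  refine Or.inl (Or.inl ⟨x, ⟨by linarith [h.lt_Uh], by linarith [h.lt_Uh]⟩, ?_⟩)
  apply Complex.ext <;> simp [Gam_re, Gam_im, clamp_mid h1 h2]

theorem Par.mem_right (h : Par L ρ r θ) {ψ : ℝ} (h1 : -(Real.pi / 2) ≤ ψ)
    (h2 : ψ ≤ Real.pi / 2 - θ) : (L : ℂ) + ρ * nv ψ ∈ Hs L ρ r θ := by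
  refine Or.inl (Or.inl ⟨L + ρ * (ψ + Real.pi / 2), ⟨?_, ?_⟩, ?_⟩)
  · nlinarith [h.lt_Uh, h.hL, h.ρ0]
  · unfold Uh; nlinarith [h.ρ0]
  · rw [Gam_right h.hL.le h.ρ0 (by linarith)]; congr 3; ring

theorem Par.mem_armR (h : Par L ρ r θ) {s : ℝ} (h0 : 0 ≤ s) (h1 : s ≤ mu L ρ r θ) :
    (⟨L + ρ * Real.sin θ - s * Real.cos θ, ρ * Real.cos θ + s * Real.sin θ⟩ : ℂ) ∈ Hs L ρ r θ := by
  refine Or.inr ?_
  convert mem_arm h.mu0 h0 h1 using 1
  apply Complex.ext
  · simp only [Complex.add_re, h.end_re, Complex.re_ofReal_mul, nv_re, Real.cos_pi_sub]; ring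
  · simp only [Complex.add_im, h.end_im, Complex.im_ofReal_mul, nv_im, Real.sin_pi_sub]

theorem Par.mir_mem (h : Par L ρ r θ) {z : ℂ} (hz : z ∈ Hs L ρ r θ) : mir z ∈ Hs L ρ r θ := by
  rcases hz with (⟨u, hu, rfl⟩ | hz) | hz
  · exact Or.inl (Or.inl ⟨-u, ⟨by linarith [hu.2], by linarith [hu.1]⟩, Gam_neg h.hL.le u⟩)
  · obtain ⟨s, s0, s1, rfl⟩ := arm_mem h.mu0.le hz
    refine Or.inr ?_
    convert mem_arm h.mu0 s0 s1 using 1
    apply Complex.ext <;> simp [mir, Gam_neg h.hL.le, nv_re, nv_im]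
    ring
  · obtain ⟨s, s0, s1, rfl⟩ := arm_mem h.mu0.le hz
    refine Or.inl (Or.inr ?_)
    convert mem_arm h.mu0 s0 s1 using 1
    apply Complex.ext <;> simp [mir, Gam_neg h.hL.le, nv_re, nv_im]
    ring

theorem norm_nv_sub (a b : ℝ) : ‖nv a - nv b‖ ≤ |a - b| := by
  have := (lipschitzWith_circleMap 0 1).dist_le_mul a b
  simpa [circleMap, nv, dist_eq_norm, Real.dist_eq] using this

theorem lip_Gam (hL : 0 ≤ L) (hρ : 0 < ρ) : LipschitzWith 1 (Gam L ρ) := by
  refine LipschitzWith.mk_one fun u v => ?_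
  have e : Gam L ρ u - Gam L ρ v = ((clamp L u - clamp L v : ℝ) : ℂ) +
      ρ * (nv (-(Real.pi / 2) + (u - clamp L u) / ρ) -
        nv (-(Real.pi / 2) + (v - clamp L v) / ρ)) := by
    unfold Gam; push_cast; ring
  have b := norm_nv_sub (-(Real.pi / 2) + (u - clamp L u) / ρ) (-(Real.pi / 2) + (v - clamp L v) / ρ)
  rw [add_sub_add_left_eq_sub, ← sub_div, abs_div, abs_of_pos hρ, le_div_iff₀' hρ] at b
  rw [dist_eq_norm, e, Real.dist_eq]
  refine (norm_add_le _ _).trans ?_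
  rw [norm_mul, Complex.norm_real, Complex.norm_real, Real.norm_eq_abs, Real.norm_of_nonneg hρ.le]
  have : |clamp L u - clamp L v| + |u - clamp L u - (v - clamp L v)| ≤ |u - v| := by
    unfold clamp
    simp only [max_def, min_def]
    split_ifs <;> simp only [abs_eq_max_neg, max_def] <;> split_ifs <;> linarith
  linarith

theorem Par.compact (h : Par L ρ r θ) : IsCompact (Hs L ρ r θ) :=
  ((isCompact_Icc.image (lip_Gam h.hL.le h.ρ0).continuous).union (seg_compact _ _)).union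
    (seg_compact _ _)

theorem Par.conn (h : Par L ρ r θ) : IsConnected (Hs L ρ r θ) := by
  have u0 : -Uh L ρ θ ≤ Uh L ρ θ := by linarith [h.lt_Uh, h.hL]
  have c := (isConnected_Icc u0).image _ (lip_Gam h.hL.le h.ρ0).continuous.continuousOn
  exact IsConnected.union ⟨Gam L ρ (Uh L ρ θ), Or.inl ⟨_, right_mem_Icc.2 u0, rfl⟩,
    left_mem_segment ℝ _ _⟩ (IsConnected.union ⟨Gam L ρ (-Uh L ρ θ), ⟨_, left_mem_Icc.2 u0, rfl⟩,
      left_mem_segment ℝ _ _⟩ c (seg_conn _ _)) (seg_conn _ _)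

theorem Par.meas (h : Par L ρ r θ) : μH[1] (Hs L ρ r θ) ≤ ENNReal.ofReal (Lst L ρ r θ) := by
  have u0 : 0 ≤ Uh L ρ θ := by linarith [h.lt_Uh, h.hL]
  have a := (lip_Gam h.hL.le h.ρ0).hausdorffMeasure_image_le zero_le_one
    (Icc (-Uh L ρ θ) (Uh L ρ θ))
  rw [hausdorffMeasure_real, Real.volume_Icc] at a
  have b : ∀ (z : ℂ) (t : ℝ), μH[1] (segment ℝ z (z + mu L ρ r θ * nv t)) =
      ENNReal.ofReal (mu L ρ r θ) := fun z t => by
    rw [hausdorffMeasure_segment, edist_dist, dist_self_add_right, norm_mul, norm_nv, mul_one,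
      Complex.norm_real, Real.norm_of_nonneg h.mu0.le]
  refine (measure_union_le _ _).trans ((add_le_add (measure_union_le _ _) le_rfl).trans ?_)
  rw [b, b, show Lst L ρ r θ = (Uh L ρ θ - -Uh L ρ θ) + mu L ρ r θ + mu L ρ r θ by unfold Lst; ring,
    ENNReal.ofReal_add (by linarith [h.mu0]) h.mu0.le, ENNReal.ofReal_add (by linarith) h.mu0.le]
  gcongr
  simpa using a

theorem Par.short (h : Par L ρ r θ) {x : ℝ} (hx : x ≤ L) (h1 : x * Real.cos θ ≤ r) :
    x ≤ 2 * r * Real.cos θ := by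
  by_contra c
  push Not at c
  have C := h.cos0
  have S := h.sin0
  have e := Real.sin_sq_add_cos_sq θ
  have hr := h.hr
  have a1 : 2 * Real.cos θ ^ 2 < 1 := by
    have : r * (2 * Real.cos θ ^ 2) < r * 1 := by nlinarith [mul_lt_mul_of_pos_right c C]
    exact lt_of_mul_lt_mul_left this hr.le
  have a2 : Real.cos θ < Real.sin θ := by nlinarith
  have a3 : 2 * r * Real.cos θ * Real.cos θ < L * Real.sin θ := by
    nlinarith [mul_pos (mul_pos hr C) (sub_pos.2 a2), mul_pos (sub_pos.2 (c.trans_le hx)) S]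
  have a4 : r * (1 - Real.cos θ) ≤ ρ * (1 - Real.cos θ) :=
    mul_le_mul_of_nonneg_right h.hρ (by linarith [Real.cos_le_one θ])
  nlinarith [h.rel, mul_pos hr (mul_pos C C), mul_nonneg hr.le (sq_nonneg (1 - Real.cos θ))]

/-- A point given in the frame of the right tangent segment is covered by that segment. -/
theorem Par.arm_cover (h : Par L ρ r θ) {z : ℂ} {s d : ℝ}
    (e1 : z.re = L + ρ * Real.sin θ - s * Real.cos θ + d * Real.sin θ)
    (e2 : z.im = ρ * Real.cos θ + s * Real.sin θ + d * Real.cos θ) (hs : 0 ≤ s) (hd : d ^ 2 ≤ r ^ 2)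
    (ht : mu L ρ r θ < s → (s - mu L ρ r θ) ^ 2 + d ^ 2 ≤ r ^ 2) :
    ∃ p ∈ Hs L ρ r θ, dist z p ≤ r := by
  have e := Real.sin_sq_add_cos_sq θ
  have key : ∀ t : ℝ, 0 ≤ t → t ≤ mu L ρ r θ → (s - t) ^ 2 + d ^ 2 ≤ r ^ 2 →
      ∃ p ∈ Hs L ρ r θ, dist z p ≤ r := fun t t0 t1 k => by
    refine ⟨_, h.mem_armR t0 t1, le_of_sq_le_sq₀' h.hr.le ?_⟩
    rw [dist_sq, e1, e2]
    simp only
    refine le_trans (le_of_eq ?_) k
    linear_combination ((s - t) ^ 2 + d ^ 2) * e
  rcases le_or_gt s (mu L ρ r θ) with c | c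
  · exact key s hs c (by simpa using hd)
  · exact key _ h.mu0.le le_rfl (ht c)

theorem Par.cover_right (h : Par L ρ r θ) {q : ℂ} (h0 : 0 ≤ q.re)
    (hq : infDist q (seg L) = ρ + r) : ∃ p ∈ Hs L ρ r θ, dist q p ≤ r := by
  have C := h.cos0
  have S := h.sin0
  have e := Real.sin_sq_add_cos_sq θ
  have hr := h.hr
  have hρ := h.ρ0
  have hL := h.hL
  have rel := h.rel
  have LS : L * Real.sin θ ≤ r := by nlinarith [Real.cos_le_one θ]
  rcases le_total q.re L with c | c
  · rw [dI_mid hL (abs_le.2 ⟨by linarith, c⟩)] at hq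
    rcases (abs_eq (by linarith)).1 hq with k | k
    · refine h.arm_cover (s := mu L ρ r θ + r - q.re * Real.cos θ) (d := q.re * Real.sin θ)
        ?_ ?_ ?_ ?_ fun c' => ?_
      · unfold mu
        linear_combination (L - q.re) * e - Real.sin θ * rel
      · unfold mu
        rw [k]
        linear_combination (-(ρ + r)) * e - Real.cos θ * rel
      · unfold mu; nlinarith [mul_le_mul_of_nonneg_right c C.le]
      · apply pow_le_pow_left₀ (by positivity)
        nlinarith [mul_le_mul_of_nonneg_right c S.le]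
      · have := h.short c (by linarith)
        nlinarith [mul_le_mul_of_nonneg_left this h0]
    · refine ⟨_, h.mem_bot (x := q.re) (by linarith) c, le_of_sq_le_sq₀' hr.le ?_⟩
      rw [dist_sq, k]
      simp
  · rw [dI_right hL c] at hq
    have a := Complex.abs_arg_le_pi_div_two_iff.2 (show 0 ≤ (q - L).re by simpa using c)
    have rep := Complex.norm_mul_exp_arg_mul_I (q - L)
    rw [hq] at rep
    set ψ := Complex.arg (q - L)
    have qe : q = L + ((ρ + r : ℝ) : ℂ) * nv ψ := by unfold nv; rw [rep]; ring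
    obtain ⟨a1, a2⟩ := abs_le.1 a
    rcases le_total ψ (Real.pi / 2 - θ) with k | k
    · refine ⟨_, h.mem_right a1 k, ?_⟩
      rw [dist_eq_norm, qe, show (L : ℂ) + ((ρ + r : ℝ) : ℂ) * nv ψ - (L + ρ * nv ψ) = r * nv ψ by
        push_cast; ring, norm_mul, norm_nv, mul_one, Complex.norm_real, Real.norm_of_nonneg hr.le]
    · obtain ⟨β, hβ⟩ : ∃ β, ψ = Real.pi / 2 - (θ - β) := ⟨ψ - Real.pi / 2 + θ, by ring⟩
      have b0 : 0 ≤ β := by linarith
      have b1 : β ≤ θ := by linarith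
      have pi := Real.pi_pos
      have s0 : 0 ≤ Real.sin β := Real.sin_nonneg_of_nonneg_of_le_pi b0 (by linarith [h.h1])
      have c0 : Real.cos θ ≤ Real.cos β :=
        Real.cos_le_cos_of_nonneg_of_le_pi b0 (by linarith [h.h1]) b1
      have s1 : Real.sin β ≤ Real.sin θ :=
        Real.sin_le_sin_of_le_of_le_pi_div_two (by linarith) h.h1.le b1
      have c1 := Real.cos_le_one β
      have eb := Real.sin_sq_add_cos_sq β
      have d0 : 0 ≤ (ρ + r) * Real.cos β - ρ := by nlinarith [mul_pos hL S]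
      refine h.arm_cover (s := (ρ + r) * Real.sin β) (d := (ρ + r) * Real.cos β - ρ)
        ?_ ?_ (by positivity) (pow_le_pow_left₀ d0 (by nlinarith) 2) fun c' => ?_
      · rw [qe, hβ]
        simp only [Complex.add_re, Complex.ofReal_re, Complex.re_ofReal_mul, nv_re,
          Real.cos_pi_div_two_sub, Real.sin_sub]
        ring
      · rw [qe, hβ]
        simp only [Complex.add_im, Complex.ofReal_im, Complex.im_ofReal_mul, nv_im,
          Real.sin_pi_div_two_sub, Real.cos_sub]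
        ring
      · have m0 := h.mu0
        set m := mu L ρ r θ with hm
        have cb : 0 < Real.cos β := C.trans_le c0
        rcases le_total (ρ * Real.sin β) (m * Real.cos β) with g | g
        · have u1 : ((ρ + r) * Real.sin β - m) * Real.cos β ≤
              ((ρ + r) * Real.cos β - ρ) * Real.sin β := by nlinarith
          have u2 := pow_le_pow_left₀ (mul_nonneg (by linarith) cb.le) u1 2
          have u3 : (ρ + r) * Real.cos β - ρ ≤ r * Real.cos β := by nlinarith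
          have u4 := pow_le_pow_left₀ d0 u3 2
          have u5 : (((ρ + r) * Real.sin β - m) ^ 2 + ((ρ + r) * Real.cos β - ρ) ^ 2) *
              Real.cos β ^ 2 ≤ r ^ 2 * Real.cos β ^ 2 := by
            have : ((ρ + r) * Real.cos β - ρ) ^ 2 * Real.sin β ^ 2 +
                ((ρ + r) * Real.cos β - ρ) ^ 2 * Real.cos β ^ 2 =
                ((ρ + r) * Real.cos β - ρ) ^ 2 := by rw [← mul_add, eb, mul_one]
            nlinarith
          exact le_of_mul_le_mul_right u5 (by positivity)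
        · have g1 : 0 ≤ Real.sin (θ - β) :=
            Real.sin_nonneg_of_nonneg_of_le_pi (by linarith) (by linarith [h.h1])
          have g2 := Real.cos_le_one (θ - β)
          have t1 : Real.sin θ = Real.sin β * Real.cos (θ - β) + Real.cos β * Real.sin (θ - β) := by
            rw [← Real.sin_add]; congr 1; ring
          have t2 : Real.cos θ = Real.cos β * Real.cos (θ - β) - Real.sin β * Real.sin (θ - β) := by
            rw [← Real.cos_add]; congr 1; ring
          have v1 : m * Real.sin θ + ρ * Real.cos θ ≤ m * Real.sin β + ρ * Real.cos β := by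
            have p1 := mul_nonneg (add_nonneg (mul_nonneg m0.le s0) (mul_nonneg hρ.le cb.le))
              (sub_nonneg.2 g2)
            have p2 := mul_nonneg (sub_nonneg.2 g) g1
            rw [t1, t2]
            nlinarith
          have m1 : (ρ + r) * Real.sin θ - m = r - L * Real.cos θ := by rw [hm]; unfold mu; ring
          have v2 := h.short le_rfl (by nlinarith)
          have v3 : ((ρ + r) * Real.sin θ - m) ^ 2 + ((ρ + r) * Real.cos θ - ρ) ^ 2 ≤ r ^ 2 := by
            rw [m1, show (ρ + r) * Real.cos θ - ρ = L * Real.sin θ by linarith]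
            nlinarith [mul_le_mul_of_nonneg_left v2 hL.le]
          have w := mul_le_mul_of_nonneg_left v1 (show 0 ≤ ρ + r by linarith)
          have w1 : ((ρ + r) * Real.sin β - m) ^ 2 + ((ρ + r) * Real.cos β - ρ) ^ 2 =
              (ρ + r) ^ 2 + m ^ 2 + ρ ^ 2 - 2 * ((ρ + r) * (m * Real.sin β + ρ * Real.cos β)) := by
            linear_combination (ρ + r) ^ 2 * eb
          have w2 : ((ρ + r) * Real.sin θ - m) ^ 2 + ((ρ + r) * Real.cos θ - ρ) ^ 2 =
              (ρ + r) ^ 2 + m ^ 2 + ρ ^ 2 - 2 * ((ρ + r) * (m * Real.sin θ + ρ * Real.cos θ)) := by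
            linear_combination (ρ + r) ^ 2 * e
          linarith

theorem dist_mir (a b : ℂ) : dist (mir a) b = dist a (mir b) := by
  rw [← sq_eq_sq₀ dist_nonneg dist_nonneg, dist_sq, dist_sq]
  simp only [mir]
  ring

theorem dI_mir (hL : 0 < L) (z : ℂ) : infDist (mir z) (seg L) = infDist z (seg L) := by
  have k : ∀ z : ℂ, infDist (mir z) (seg L) ≤ infDist z (seg L) := fun z =>
    (le_infDist ⟨_, left_mem_segment ℝ _ _⟩).2 fun y hy => by
      have : mir y ∈ seg L := (mem_seg hL).2 (by simpa [mir] using (mem_seg hL).1 hy)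
      refine (infDist_le_dist_of_mem this).trans_eq ?_
      rw [dist_mir]; simp [mir]
  exact le_antisymm (k z) (by simpa [mir] using k (mir z))

theorem Par.cover (h : Par L ρ r θ) {q : ℂ} (hq : infDist q (seg L) = ρ + r) :
    q ∈ cthickening r (Hs L ρ r θ) := by
  have : ∃ p ∈ Hs L ρ r θ, dist q p ≤ r := by
    rcases le_total 0 q.re with c | c
    · exact h.cover_right c hq
    · obtain ⟨p, hp, hd⟩ := h.cover_right (q := mir q) (by simpa [mir] using c)
        (by rw [dI_mir h.hL, hq])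
      exact ⟨mir p, h.mir_mem hp, by rwa [← dist_mir]⟩
  obtain ⟨p, hp, hd⟩ := this
  exact mem_cthickening_of_dist_le q p r _ hp hd

/-- A closed subset of a continuum of the same finite length is the whole continuum. -/
theorem eq_of_meas {S H : Set ℂ} (hS : IsClosed S) (hne : S.Nonempty) (hH : IsPreconnected H)
    (hsub : S ⊆ H) (hfin : μH[1] S ≠ ⊤) (hle : μH[1] H ≤ μH[1] S) : S = H := by
  refine hsub.antisymm fun x hx => ?_
  by_contra hn
  obtain ⟨ε, hε, hb⟩ := Metric.isOpen_iff.1 hS.isOpen_compl x hn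
  obtain ⟨y, hy⟩ := hne
  have d : ε ≤ dist x y := not_lt.1 fun c => hb (by rwa [mem_ball, dist_comm]) hy
  have a := ofReal_le_measure hH hx (hsub hy) d
  have dj : Disjoint (H ∩ ball x ε) S := Set.disjoint_left.2 fun z hz => hb hz.2
  have b := measure_union (μ := μH[1]) dj hS.measurableSet
  have c : μH[1] (H ∩ ball x ε ∪ S) ≤ μH[1] S :=
    (measure_mono (union_subset inter_subset_left hsub)).trans hle
  rw [b, add_comm] at c
  have := ENNReal.lt_add_right hfin (((ENNReal.ofReal_pos.2 hε).trans_le a).ne')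
  exact absurd c (not_le.2 this)

end Pool.Agent.Lib.MP_4b56aa_gt.Out
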