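import Pool.Agent.Lib.MP_4b56aa_gt.Red.RDefs

/-! The explicit horseshoe of the stadium around `[-L, L]` with the gap at the top. -/

namespace Pool.Agent.Lib.MP_4b56aa_gt.Out

open Set Pool.Agent.Lib.MP_4b56aa_gt.Red

/-- The nearest point of `[-L, L]`. -/
def clamp (L u : ℝ) : ℝ := max (-L) (min u L)

/-- Arc length parametrisation of the inner curve, starting at the middle of the bottom side. -/
noncomputable def Gam (L ρ u : ℝ) : ℂ :=
  clamp L u + ρ * nv (-(Real.pi / 2) + (u - clamp L u) / ρ)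

/-- Half the length of the part of the horseshoe on the inner curve. -/
noncomputable def Uh (L ρ θ : ℝ) : ℝ := L + ρ * (Real.pi - θ)

/-- Length of each tangent segment. -/
noncomputable def mu (L ρ r θ : ℝ) : ℝ := L * Real.cos θ + (ρ + r) * Real.sin θ - r

/-- Length of the horseshoe. -/
noncomputable def Lst (L ρ r θ : ℝ) : ℝ := 2 * Uh L ρ θ + 2 * mu L ρ r θ

/-- The horseshoe with the gap at the middle of the top side. -/
def Hs (L ρ r θ : ℝ) : Set ℂ :=
  Gam L ρ '' Icc (-Uh L ρ θ) (Uh L ρ θ) ∪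
    segment ℝ (Gam L ρ (-Uh L ρ θ)) (Gam L ρ (-Uh L ρ θ) + mu L ρ r θ * nv θ) ∪
    segment ℝ (Gam L ρ (Uh L ρ θ)) (Gam L ρ (Uh L ρ θ) + mu L ρ r θ * nv (Real.pi - θ))

/-- The standing assumptions: `2 L` is the length of the segment, `ρ + r` the radius and `θ` the
tilt of the tangent segments. -/
structure Par (L ρ r θ : ℝ) : Prop where
  hL : 0 < L
  hr : 0 < r
  hρ : r ≤ ρ
  h0 : 0 < θ
  h1 : θ < Real.pi / 2
  rel : ρ + L * Real.sin θ = (ρ + r) * Real.cos θ

end Pool.Agent.Lib.MP_4b56aa_gt.Out
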