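import Pool.Agent.Lib.MP_4b56aa_gt.Out.OHorse
import Pool.Agent.Lib.MP_4b56aa_gt.Main

namespace Pool.Agent.Lib.MP_4b56aa_gt.Out

open Set MeasureTheory Metric Pool.Agent.Lib.MP_4b56aa_gt.Red

variable {L ρ r θ : ℝ}

theorem Par.phi (h : Par L ρ r θ) {u : ℝ} (hu : u ∈ Icc (-Uh L ρ θ) (Uh L ρ θ)) :
    |(u - clamp L u) / ρ| ≤ Real.pi - θ ∧ (0 < (u - clamp L u) / ρ → clamp L u = L) ∧
      ((u - clamp L u) / ρ < 0 → clamp L u = -L) := by
  have hρ := h.ρ0
  have hL := h.hL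
  have p : 0 < ρ * (Real.pi - θ) := by have := h.lt_Uh; unfold Uh at this; linarith
  obtain ⟨u1, u2⟩ := hu
  unfold Uh at u1 u2
  rw [abs_div, abs_of_pos hρ, div_le_iff₀' hρ, abs_le, div_pos_iff_of_pos_right hρ,
    div_neg_iff, or_iff_right (fun c => absurd c.2 (not_lt.2 hρ.le))]
  rcases le_total u (-L) with c | c
  · rw [clamp_left hL.le c]
    exact ⟨⟨by linarith, by linarith⟩, fun _ => by linarith, fun _ => rfl⟩
  rcases le_total u L with c' | c'
  · rw [clamp_mid c c']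
    exact ⟨⟨by linarith, by linarith⟩, fun _ => by linarith, fun k => by linarith [k.1]⟩
  · rw [clamp_right hL.le c']
    exact ⟨⟨by linarith, by linarith⟩, fun _ => rfl, fun k => by linarith [k.1]⟩

theorem Par.inj (h : Par L ρ r θ) : InjOn (Gam L ρ) (Icc (-Uh L ρ θ) (Uh L ρ θ)) := by
  intro u hu v hv e
  have hρ := h.ρ0
  have hL := h.hL
  have h0 := h.h0
  obtain ⟨a1, a2, a3⟩ := h.phi hu
  obtain ⟨b1, b2, b3⟩ := h.phi hv
  have e1 := congrArg Complex.re e
  have e2 := congrArg Complex.im e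
  rw [Gam_re, Gam_re] at e1
  rw [Gam_im, Gam_im, neg_inj, mul_right_inj' hρ.ne', ← Real.cos_abs,
    ← Real.cos_abs ((v - clamp L v) / ρ)] at e2
  have e3 := Real.injOn_cos ⟨abs_nonneg _, by linarith⟩ ⟨abs_nonneg _, by linarith⟩ e2
  have same : (u - clamp L u) / ρ = (v - clamp L v) / ρ → u = v := fun k => by
    rw [k] at e1
    rw [div_left_inj' hρ.ne'] at k
    linarith
  set x := (u - clamp L u) / ρ
  set y := (v - clamp L v) / ρ
  rcases abs_eq_abs.1 e3 with k | k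
  · exact same k
  rcases lt_trichotomy y 0 with c | c | c
  · have s := Real.sin_nonneg_of_nonneg_of_le_pi (x := -y) (by linarith)
      (by linarith [(abs_le.1 b1).1])
    rw [a2 (by linarith), b3 c, k] at e1
    rw [Real.sin_neg] at e1 s
    nlinarith
  · exact same (by rw [k, c, neg_zero])
  · have s := Real.sin_nonneg_of_nonneg_of_le_pi c.le (by linarith [(abs_le.1 b1).2])
    rw [a3 (by linarith), b2 c, k, Real.sin_neg] at e1
    nlinarith

theorem Par.dI_Gam (h : Par L ρ r θ) {u : ℝ} (hu : u ∈ Icc (-Uh L ρ θ) (Uh L ρ θ)) :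
    infDist (Gam L ρ u) (seg L) = ρ := by
  have hρ := h.ρ0
  have hL := h.hL
  have key : ∀ u, 0 ≤ u → u ≤ Uh L ρ θ → infDist (Gam L ρ u) (seg L) = ρ := fun u u0 u1 => by
    rcases le_total u L with c | c
    · have e := clamp_mid (L := L) (u := u) (by linarith) c
      rw [dI_mid hL (by simpa [Gam_re, e] using abs_le.2 ⟨by linarith, c⟩), Gam_im, e]
      simp [abs_of_pos hρ]
    · have e := clamp_right hL.le c
      have a := (abs_le.1 (h.phi ⟨by linarith [h.lt_Uh], u1⟩).1).2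
      have s := Real.sin_nonneg_of_nonneg_of_le_pi (x := (u - clamp L u) / ρ)
        (by rw [e]; exact div_nonneg (by linarith) hρ.le) (by linarith [h.h0])
      rw [dI_right hL (by rw [Gam_re]; nlinarith), Gam, e, add_sub_cancel_left, norm_mul, norm_nv,
        mul_one, Complex.norm_real, Real.norm_of_nonneg hρ.le]
  rcases le_total 0 u with c | c
  · exact key u c hu.2
  · rw [← neg_neg u, Gam_neg hL.le, dI_mir hL]
    exact key _ (by linarith) (by linarith [hu.1])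

theorem Par.dI_lt (h : Par L ρ r θ) {z : ℂ} (hz : z ∈ Hs L ρ r θ) :
    infDist z (seg L) < ρ + r := by
  have C := h.cos0
  have S := h.sin0
  have e := Real.sin_sq_add_cos_sq θ
  have hr := h.hr
  have hρ := h.ρ0
  have hL := h.hL
  have rel := h.rel
  have key : ∀ z ∈ segment ℝ (Gam L ρ (Uh L ρ θ))
      (Gam L ρ (Uh L ρ θ) + mu L ρ r θ * nv (Real.pi - θ)), infDist z (seg L) < ρ + r := by
    intro z hz
    obtain ⟨s, s0, s1, hs⟩ := arm_mem h.mu0.le hz
    have e1 : z.re = L + ρ * Real.sin θ - s * Real.cos θ := by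
      simp only [hs, Complex.add_re, h.end_re, Complex.re_ofReal_mul, nv_re, Real.cos_pi_sub]; ring
    have e2 : z.im = ρ * Real.cos θ + s * Real.sin θ := by
      simp only [hs, Complex.add_im, h.end_im, Complex.im_ofReal_mul, nv_im, Real.sin_pi_sub]
    have m1 : mu L ρ r θ * Real.cos θ = L + ρ * Real.sin θ - r * Real.cos θ := by
      unfold mu; linear_combination L * e - Real.sin θ * rel
    have m2 : mu L ρ r θ * Real.sin θ = ρ + r - ρ * Real.cos θ - r * Real.sin θ := by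
      unfold mu; linear_combination (ρ + r) * e + Real.cos θ * rel
    rcases le_total z.re L with c | c
    · have p1 := mul_le_mul_of_nonneg_right s1 C.le
      have p2 := mul_le_mul_of_nonneg_right s1 S.le
      rw [dI_mid hL (abs_le.2 ⟨by nlinarith [mul_pos hr C], c⟩), e2, abs_of_nonneg (by positivity)]
      nlinarith [mul_pos hr S]
    · rw [dI_right hL c]
      refine lt_of_pow_lt_pow_left₀ 2 (by positivity) ?_
      have n : ‖z - L‖ ^ 2 = ρ ^ 2 + s ^ 2 := by
        rw [Complex.sq_norm, Complex.normSq_apply]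
        simp only [Complex.sub_re, Complex.sub_im, Complex.ofReal_re, Complex.ofReal_im, e1, e2]
        linear_combination (ρ ^ 2 + s ^ 2) * e
      have p1 := pow_le_pow_left₀ (mul_nonneg s0 C.le)
        (show s * Real.cos θ ≤ ρ * Real.sin θ by linarith) 2
      have p2 := pow_lt_pow_left₀ (show ρ < (ρ + r) * Real.cos θ by nlinarith [mul_pos hL S])
        hρ.le two_ne_zero
      have p3 : (ρ ^ 2 + s ^ 2) * Real.cos θ ^ 2 < (ρ + r) ^ 2 * Real.cos θ ^ 2 := by
        have : ρ ^ 2 * Real.sin θ ^ 2 + ρ ^ 2 * Real.cos θ ^ 2 = ρ ^ 2 := by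
          rw [← mul_add, e, mul_one]
        nlinarith
      rw [n]
      exact lt_of_mul_lt_mul_right p3 (by positivity)
  rcases hz with (⟨u, hu, rfl⟩ | hz) | hz
  · rw [h.dI_Gam hu]; linarith
  · obtain ⟨s, s0, s1, rfl⟩ := arm_mem h.mu0.le hz
    rw [← dI_mir hL]
    refine key _ ?_
    convert mem_arm h.mu0 s0 s1 using 1
    apply Complex.ext <;> simp [mir, Gam_neg h.hL.le, nv_re, nv_im]
    ring
  · exact key z hz

theorem deriv_arc (hρ : 0 < ρ) (c u : ℝ) :
    HasDerivAt (fun u : ℝ => (c : ℂ) + ρ * nv (-(Real.pi / 2) + (u - c) / ρ))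
      (nv ((u - c) / ρ)) u := by
  have a : HasDerivAt (fun u : ℝ => -(Real.pi / 2) + (u - c) / ρ) (1 / ρ) u :=
    (((hasDerivAt_id u).sub_const c).div_const ρ).const_add _
  have b := (((a.ofReal_comp.mul_const Complex.I).cexp).const_mul (ρ : ℂ)).const_add (c : ℂ)
  refine HasDerivAt.congr_deriv b ?_
  have : (ρ : ℂ) ≠ 0 := Complex.ofReal_ne_zero.2 hρ.ne'
  have k : nv ((u - c) / ρ) = nv (-(Real.pi / 2) + (u - c) / ρ) * Complex.I := by
    apply Complex.ext <;>
      simp [nv_re, nv_im, add_comm (-(Real.pi / 2)), ← sub_eq_add_neg, Real.sin_sub_pi_div_two,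
        Real.cos_sub_pi_div_two]
  rw [k, nv]
  push_cast
  field_simp

theorem Par.deriv_right (h : Par L ρ r θ) :
    HasDerivAt (Gam L ρ) (nv (Real.pi - θ)) (Uh L ρ θ) := by
  have a := deriv_arc h.ρ0 L (Uh L ρ θ)
  rw [show (Uh L ρ θ - L) / ρ = Real.pi - θ by
    rw [Uh, add_sub_cancel_left, mul_div_cancel_left₀ _ h.ρ0.ne']] at a
  refine a.congr_of_eventuallyEq ?_
  filter_upwards [Ioi_mem_nhds h.lt_Uh] with u hu
  rw [Gam, clamp_right h.hL.le (le_of_lt hu)]

theorem Par.deriv_left (h : Par L ρ r θ) : HasDerivAt (Gam L ρ) (-nv θ) (-Uh L ρ θ) := by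
  have a := deriv_arc h.ρ0 (-L) (-Uh L ρ θ)
  have e : (-Uh L ρ θ - -L) / ρ = θ - Real.pi := by
    rw [Uh, div_eq_iff h.ρ0.ne']; ring
  have e' : nv (θ - Real.pi) = -nv θ := by
    apply Complex.ext <;> simp [nv_re, nv_im, Real.cos_sub_pi, Real.sin_sub_pi]
  rw [e, e'] at a
  refine a.congr_of_eventuallyEq ?_
  filter_upwards [Iio_mem_nhds (neg_lt_neg h.lt_Uh)] with u hu
  rw [Gam, clamp_left h.hL.le (le_of_lt hu)]

theorem aff_sub (A : ℂ ≃ᵃⁱ[ℝ] Plane) (z v : ℂ) : A (z + v) - A z = A.linearIsometryEquiv v := by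
  have := A.map_vsub (z + v) z
  simpa using this.symm

theorem cone_of_deriv (A : ℂ ≃ᵃⁱ[ℝ] Plane) {G : ℝ → ℂ} {v : ℂ} {a b x : ℝ} (hab : a < b)
    (hx : x ∈ Icc a b) (h : HasDerivAt G v x) (t : ℝ) :
    A (G x + t * v) - A (G x) ∈ tangentConeAt ℝ (A '' (G '' Icc a b)) (A (G x)) := by
  have d : HasDerivAt (fun u => A (G u)) (A.linearIsometryEquiv v) x := by
    have := (A.linearIsometryEquiv.toContinuousLinearEquiv.hasFDerivAt.comp_hasDerivAt x
      h).add_const (A 0)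
    refine this.congr_of_eventuallyEq (.of_forall fun u => ?_)
    have k := aff_sub A 0 (G u)
    rw [zero_add] at k
    exact eq_add_of_sub_eq k
  have := d.hasFDerivAt.hasFDerivWithinAt.mapsTo_tangent_cone (s := Icc a b)
    (show t ∈ _ by rw [tangentConeAt_eq_univ (uniqueDiffOn_Icc hab x hx).accPt]; trivial)
  rw [aff_sub, image_image, ← Complex.real_smul, map_smul]
  simpa using this

theorem Par.horseshoe (h : Par L ρ r θ) (A : ℂ ≃ᵃⁱ[ℝ] Plane) {a b : Plane}
    (hA : A '' seg L = segment ℝ a b) : IsHorseshoe r (ρ + r) a b (A '' Hs L ρ r θ) := by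
  have u0 : 0 < Uh L ρ θ := h.hL.trans h.lt_Uh
  have u1 : -Uh L ρ θ < Uh L ρ θ := by linarith
  have mp : ∀ s ∈ Icc (0 : ℝ) 1, (2 * s - 1) * Uh L ρ θ ∈ Icc (-Uh L ρ θ) (Uh L ρ θ) :=
    fun s hs => ⟨by nlinarith [hs.1], by nlinarith [hs.2]⟩
  have im : (fun s : ℝ => A (Gam L ρ ((2 * s - 1) * Uh L ρ θ))) '' Icc 0 1 =
      A '' (Gam L ρ '' Icc (-Uh L ρ θ) (Uh L ρ θ)) := by
    refine Subset.antisymm ?_ ?_
    · rintro _ ⟨s, hs, rfl⟩
      exact ⟨_, ⟨_, mp s hs, rfl⟩, rfl⟩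
    · rintro _ ⟨_, ⟨u, hu, rfl⟩, rfl⟩
      refine ⟨(u / Uh L ρ θ + 1) / 2, ⟨?_, ?_⟩, ?_⟩
      · have := (le_div_iff₀ u0).2 (show -1 * Uh L ρ θ ≤ u by linarith [hu.1])
        linarith
      · have := (div_le_one u0).2 hu.2
        linarith
      · simp only
        congr 2
        field_simp
        ring
  have e0 : (2 * (0 : ℝ) - 1) * Uh L ρ θ = -Uh L ρ θ := by ring
  have e1 : (2 * (1 : ℝ) - 1) * Uh L ρ θ = Uh L ρ θ := by ring
  have sg : ∀ x y : ℂ, A '' segment ℝ x y = segment ℝ (A x) (A y) := fun x y =>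
    image_segment ℝ A.toAffineEquiv.toAffineMap x y
  refine ⟨fun s => A (Gam L ρ ((2 * s - 1) * Uh L ρ θ)),
    A (Gam L ρ (-Uh L ρ θ) + mu L ρ r θ * nv θ),
    A (Gam L ρ (Uh L ρ θ) + mu L ρ r θ * nv (Real.pi - θ)), ?_, ?_, ?_, ?_, ?_, ?_⟩
  · exact (A.continuous.comp ((lip_Gam h.hL.le h.ρ0).continuous.comp (by fun_prop))).continuousOn
  · intro s hs t ht e
    have := mul_right_cancel₀ u0.ne' (h.inj (mp s hs) (mp t ht) (A.injective e))
    linarith
  · rintro _ ⟨s, hs, rfl⟩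
    rw [stadium, add_sub_cancel_right, mem_frontier_cth (seg_compact a b) (convex_segment a b)
      ⟨a, left_mem_segment ℝ a b⟩ h.ρ0, ← hA, infDist_image A.isometry]
    exact h.dI_Gam (mp s hs)
  · rw [im]
    simp only [e0]
    have := cone_of_deriv A u1 (left_mem_Icc.2 u1.le) h.deriv_left (-mu L ρ r θ)
    simpa using this
  · rw [im]
    simp only [e1]
    exact cone_of_deriv A u1 (right_mem_Icc.2 u1.le) h.deriv_right _
  · rw [im]
    simp only [e0, e1]
    rw [Hs, image_union, image_union, sg, sg]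

end Pool.Agent.Lib.MP_4b56aa_gt.Out
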